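import Pool.Agent.W223.PL.Stms
import Pool.Agent.H510R2.Div

set_option autoImplicit false

namespace Pool.Agent.W75.PL.DIV

/-- The divisor bound. -/
theorem t : Pool.Agent.W223.PL.StmtDIV := by
  intro ε hε
  obtain ⟨C, -, hC⟩ := Pool.Agent.H510R2.divisor_bound ε hε
  refine ⟨max C 1, le_max_right _ _, fun n hn => (hC n hn).trans ?_⟩
  exact mul_le_mul_of_nonneg_right (le_max_left _ _) (by positivity)

end Pool.Agent.W75.PL.DIV
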